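import Mathlib
import Pool.Agent.Lead.CubA

/-! A reduced plane nonic with eight triple points and three simple points at general positions
and one further triple point: three cubics of the pencil through eight general points. -/

namespace Pool.Agent.Results.MP_b1ca72_ag.ThreeCubics

open MvPolynomial Filter Topology Pool.Agent.Lead.Cub

/-- The order of vanishing of `F` at the vector `p`: the least total degree of a monomial
occurring in the Taylor expansion `F (X + p)` (infinite for `F = 0`). -/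
noncomputable def mult (F : MvPolynomial (Fin 3) ℂ) (p : Fin 3 → ℂ) : ℕ∞ :=
  MvPowerSeries.order
    ((aeval (fun i => X i + C (p i)) F : MvPolynomial (Fin 3) ℂ) : MvPowerSeries (Fin 3) ℂ)

lemma mult_mul (F G : MvPolynomial (Fin 3) ℂ) (p : Fin 3 → ℂ) :
    mult (F * G) p = mult F p + mult G p := by
  simp only [mult, map_mul, MvPolynomial.coe_mul, MvPowerSeries.order_mul]

lemma const_shift (F : MvPolynomial (Fin 3) ℂ) (p : Fin 3 → ℂ) :
    constantCoeff (aeval (fun i => X i + C (p i)) F : MvPolynomial (Fin 3) ℂ) = eval p F := by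
  induction F using MvPolynomial.induction_on with
  | C a => simp
  | add f g hf hg => simp only [map_add, hf, hg]
  | mul_X f i hf =>
    simp only [map_mul, hf, aeval_X, map_add, constantCoeff_X, constantCoeff_C, eval_X, zero_add]

lemma pderiv_shift (F : MvPolynomial (Fin 3) ℂ) (p : Fin 3 → ℂ) (j : Fin 3) :
    pderiv j (aeval (fun i => X i + C (p i)) F : MvPolynomial (Fin 3) ℂ)
      = aeval (fun i => X i + C (p i)) (pderiv j F) := by
  induction F using MvPolynomial.induction_on with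
  | C a => simp
  | add f g hf hg => simp only [map_add, hf, hg]
  | mul_X f i hf =>
    simp only [map_mul, aeval_X, Derivation.leibniz, smul_eq_mul, map_add, hf, pderiv_C,
      add_zero]
    by_cases h : i = j
    · subst h; simp
    · simp [pderiv_X_of_ne h]

lemma mult_zero {F : MvPolynomial (Fin 3) ℂ} {p : Fin 3 → ℂ} (h : eval p F ≠ 0) :
    mult F p = 0 := by
  by_contra h0
  rw [mult, ← ne_eq, MvPowerSeries.order_ne_zero_iff_constCoeff_eq_zero] at h0
  apply h
  rw [← const_shift]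
  simpa [← MvPowerSeries.coeff_zero_eq_constantCoeff_apply, constantCoeff_eq] using h0

lemma mult_one {F : MvPolynomial (Fin 3) ℂ} {p : Fin 3 → ℂ} (h : eval p F = 0)
    (h1 : eval p (pderiv 0 F) ≠ 0) : mult F p = 1 := by
  apply le_antisymm
  · have : MvPowerSeries.coeff (Finsupp.single (0 : Fin 3) 1)
        ((aeval (fun i => X i + C (p i)) F : MvPolynomial (Fin 3) ℂ) :
          MvPowerSeries (Fin 3) ℂ) ≠ 0 := by
      rw [MvPolynomial.coeff_coe]
      intro h2
      apply h1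
      rw [← const_shift, ← pderiv_shift, constantCoeff_eq, coeff_pderiv]
      rw [zero_add, h2, zero_mul]
    have h3 := MvPowerSeries.order_le this
    simpa [mult] using h3
  · rw [mult, MvPowerSeries.one_le_order_iff_constCoeff_eq_zero]
    rw [← const_shift] at h
    simpa [← MvPowerSeries.coeff_zero_eq_constantCoeff_apply, constantCoeff_eq] using h

noncomputable def cubP (a : Fin 10 → ℂ) : MvPolynomial (Fin 3) ℂ :=
  C (a 0) * X 0 ^ 3 + C (a 1) * (X 0 ^ 2 * X 1) + C (a 2) * (X 0 * X 1 ^ 2) + C (a 3) * X 1 ^ 3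
    + C (a 4) * (X 0 ^ 2 * X 2) + C (a 5) * (X 0 * X 1 * X 2) + C (a 6) * (X 1 ^ 2 * X 2)
    + C (a 7) * (X 0 * X 2 ^ 2) + C (a 8) * (X 1 * X 2 ^ 2) + C (a 9) * X 2 ^ 3

lemma eval_cubP (a : Fin 10 → ℂ) (v : Fin 3 → ℂ) : eval v (cubP a) = cub a v := by
  simp [cubP, cub]

lemma eval_pderiv_cubP (a : Fin 10 → ℂ) (v : Fin 3 → ℂ) :
    eval v (pderiv 0 (cubP a)) = cubX a v := by
  simp [cubP, cubX, pderiv_X]
  ring

lemma cubP_hom (a : Fin 10 → ℂ) : (cubP a).IsHomogeneous 3 := by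
  have hX : ∀ i : Fin 3, (X i : MvPolynomial (Fin 3) ℂ).IsHomogeneous 1 :=
    fun i => isHomogeneous_X ℂ i
  unfold cubP
  refine (((((((((IsHomogeneous.C_mul ?_ _).add (IsHomogeneous.C_mul ?_ _)).add
    (IsHomogeneous.C_mul ?_ _)).add (IsHomogeneous.C_mul ?_ _)).add
    (IsHomogeneous.C_mul ?_ _)).add (IsHomogeneous.C_mul ?_ _)).add
    (IsHomogeneous.C_mul ?_ _)).add (IsHomogeneous.C_mul ?_ _)).add
    (IsHomogeneous.C_mul ?_ _)).add (IsHomogeneous.C_mul ?_ _)
  · exact (hX 0).pow 3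
  · exact ((hX 0).pow 2).mul (hX 1)
  · exact (hX 0).mul ((hX 1).pow 2)
  · exact (hX 1).pow 3
  · exact ((hX 0).pow 2).mul (hX 2)
  · exact ((hX 0).mul (hX 1)).mul (hX 2)
  · exact ((hX 1).pow 2).mul (hX 2)
  · exact (hX 0).mul ((hX 2).pow 2)
  · exact (hX 1).mul ((hX 2).pow 2)
  · exact (hX 2).pow 3

/-- restriction to the line `(t, 1, 0)` -/
noncomputable def rl : MvPolynomial (Fin 3) ℂ →ₐ[ℂ] Polynomial ℂ :=
  aeval ![Polynomial.X, 1, 0]

lemma rl_cubP (a : Fin 10 → ℂ) : rl (cubP a) = Polynomial.C (a 0) * Polynomial.X ^ 3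
    + Polynomial.C (a 1) * Polynomial.X ^ 2 + Polynomial.C (a 2) * Polynomial.X
    + Polynomial.C (a 3) := by
  simp [rl, cubP]

lemma rl_natDegree_le (F : MvPolynomial (Fin 3) ℂ) : (rl F).natDegree ≤ F.totalDegree := by
  have := MvPolynomial.aeval_natDegree_le (n := 1) F le_rfl ![Polynomial.X, 1, 0]
    (by intro i; fin_cases i <;> simp)
  simpa [rl] using this

lemma sqf_of_rl {F : MvPolynomial (Fin 3) ℂ} {d : ℕ} (hF : F.totalDegree ≤ d)
    (hd : (rl F).natDegree = d) (hs : Squarefree (rl F)) : Squarefree F := by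
  have hF0 : F ≠ 0 := by
    rintro rfl
    simp at hs
  rintro h ⟨k, hk⟩
  have hh : h ≠ 0 := by rintro rfl; simp [hk] at hF0
  have hk0 : k ≠ 0 := by rintro rfl; simp [hk] at hF0
  have hu : IsUnit (rl h) := hs _ ⟨rl k, by rw [hk, map_mul, map_mul]⟩
  have h1 : (rl F).natDegree ≤ k.totalDegree := by
    rw [hk, map_mul, map_mul]
    refine Polynomial.natDegree_mul_le.trans ?_
    rw [Polynomial.natDegree_eq_zero_of_isUnit (hu.mul hu), zero_add]
    exact rl_natDegree_le k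
  have h2 : F.totalDegree = h.totalDegree + h.totalDegree + k.totalDegree := by
    rw [hk, totalDegree_mul_of_isDomain (mul_ne_zero hh hh) hk0,
      totalDegree_mul_of_isDomain hh hh]
  have h3 : h.totalDegree = 0 := by omega
  rw [totalDegree_eq_zero_iff_eq_C] at h3
  rw [h3] at hh ⊢
  have : coeff 0 h ≠ 0 := by
    intro h4; apply hh; rw [h4]; simp
  exact (IsUnit.mk0 _ this).map C

noncomputable def dsc (c : Fin 10 → ℂ) : ℂ :=
  (9 * c 0 * c 3 - c 1 * c 2) ^ 2 - (6 * c 0 * c 2 - 2 * c 1 ^ 2) * (6 * c 1 * c 3 - 2 * c 2 ^ 2)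

noncomputable def br (a b : Fin 10 → ℂ) (i j : Fin 10) : ℂ := a i * b j - a j * b i

noncomputable def res (a b : Fin 10 → ℂ) : ℂ :=
  br a b 0 1 * ((br a b 0 3 + br a b 1 2) * br a b 2 3 - br a b 1 3 * br a b 1 3)
    - br a b 0 2 * (br a b 0 2 * br a b 2 3 - br a b 1 3 * br a b 0 3)
    + br a b 0 3 * (br a b 0 2 * br a b 1 3 - (br a b 0 3 + br a b 1 2) * br a b 0 3)

lemma res_zero {a b : Fin 10 → ℂ} {t : ℂ} (ha : a 0 * t ^ 3 + a 1 * t ^ 2 + a 2 * t + a 3 = 0)
    (hb : b 0 * t ^ 3 + b 1 * t ^ 2 + b 2 * t + b 3 = 0) : res a b = 0 := by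
  have r1 : br a b 0 1 * t ^ 2 + br a b 0 2 * t + br a b 0 3 = 0 := by
    unfold br; linear_combination a 0 * hb - b 0 * ha
  have r2 : br a b 0 2 * t ^ 2 + (br a b 0 3 + br a b 1 2) * t + br a b 1 3 = 0 := by
    unfold br; linear_combination (a 0 * t + a 1) * hb - (b 0 * t + b 1) * ha
  have r3 : br a b 0 3 * t ^ 2 + br a b 1 3 * t + br a b 2 3 = 0 := by
    unfold br
    linear_combination (a 0 * t ^ 2 + a 1 * t + a 2) * hb - (b 0 * t ^ 2 + b 1 * t + b 2) * ha
  unfold res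
  linear_combination
    (br a b 0 2 * br a b 1 3 - (br a b 0 3 + br a b 1 2) * br a b 0 3) * r1
    - (br a b 0 1 * br a b 1 3 - br a b 0 2 * br a b 0 3) * r2
    + (br a b 0 1 * (br a b 0 3 + br a b 1 2) - br a b 0 2 * br a b 0 2) * r3

lemma sep_cub {c : Fin 10 → ℂ} (h : dsc c ≠ 0) : (rl (cubP c)).Separable := by
  rw [rl_cubP, Polynomial.Separable,
    Polynomial.isCoprime_iff_aeval_ne_zero_of_isAlgClosed (k := ℂ) ℂ]
  intro t
  by_contra hc
  push Not at hc
  obtain ⟨h1, h2⟩ := hc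
  simp at h1 h2
  apply h
  unfold dsc
  have e0 : c 1 * t ^ 2 + 2 * c 2 * t + 3 * c 3 = 0 := by linear_combination 3 * h1 - t * h2
  have e1 : (6 * c 0 * c 2 - 2 * c 1 ^ 2) * t + (9 * c 0 * c 3 - c 1 * c 2) = 0 := by
    linear_combination (3 * c 0) * e0 - c 1 * h2
  have e2 : (9 * c 0 * c 3 - c 1 * c 2) * t + (6 * c 1 * c 3 - 2 * c 2 ^ 2) = 0 := by
    linear_combination (3 * c 0 * t + 2 * c 1) * e0 - (c 1 * t + 2 * c 2) * h2
  linear_combination (9 * c 0 * c 3 - c 1 * c 2) * e1 - (6 * c 0 * c 2 - 2 * c 1 ^ 2) * e2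

noncomputable def cc (e : E) (j : Fin 3) : Fin 10 → ℂ :=
  fun k => cub e.2.2.1 (e.1 (ka j)) * e.2.1 k - cub e.2.1 (e.1 (ka j)) * e.2.2.1 k

lemma cub_cc (e : E) (j : Fin 3) (v : Fin 3 → ℂ) : cub (cc e j) v
    = cub e.2.2.1 (e.1 (ka j)) * cub e.2.1 v - cub e.2.1 (e.1 (ka j)) * cub e.2.2.1 v := by
  generalize hβ : cub e.2.2.1 (e.1 (ka j)) = β
  generalize hα : cub e.2.1 (e.1 (ka j)) = α
  have : cc e j = fun k => β * e.2.1 k - α * e.2.2.1 k := by
    funext k; simp only [cc, hβ, hα]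
  rw [this]
  simp only [cub]
  ring

lemma cop {e : E} {j k : Fin 3} (h : cub (cc e k) (e.1 (ka j)) ≠ 0)
    (hr : res e.2.1 e.2.2.1 ≠ 0) : IsCoprime (rl (cubP (cc e j))) (rl (cubP (cc e k))) := by
  rw [rl_cubP, rl_cubP, Polynomial.isCoprime_iff_aeval_ne_zero_of_isAlgClosed (k := ℂ) ℂ]
  intro t
  by_contra hc
  push Not at hc
  obtain ⟨h1, h2⟩ := hc
  rw [cub_cc] at h
  simp only [cc] at h1 h2
  generalize cub e.2.2.1 (e.1 (ka j)) = β at *
  generalize cub e.2.1 (e.1 (ka j)) = α at *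
  generalize cub e.2.2.1 (e.1 (ka k)) = β' at *
  generalize cub e.2.1 (e.1 (ka k)) = α' at *
  simp only [map_add, map_mul, Polynomial.aeval_C, map_pow, Polynomial.aeval_X,
    Algebra.algebraMap_self, RingHom.id_apply] at h1 h2
  apply hr
  apply res_zero (t := t)
  · apply mul_left_cancel₀ h
    linear_combination α * h2 - α' * h1
  · apply mul_left_cancel₀ h
    linear_combination β * h2 - β' * h1

noncomputable def sp (u v : Fin 3 → ℂ) : ℂ := (u 0 + 7 * u 1) * v 2 - (v 0 + 7 * v 1) * u 2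

lemma li_of_sp {u v : Fin 3 → ℂ} (h : sp u v ≠ 0) : LinearIndependent ℂ ![u, v] := by
  rw [LinearIndependent.pair_iff]
  intro s t hst
  have h0 := congrFun hst 0
  have h1 := congrFun hst 1
  have h2 := congrFun hst 2
  simp only [Pi.add_apply, Pi.smul_apply, smul_eq_mul, Pi.zero_apply] at h0 h1 h2
  unfold sp at h
  constructor
  · apply mul_left_cancel₀ h
    linear_combination v 2 * h0 + 7 * v 2 * h1 - (v 0 + 7 * v 1) * h2
  · apply mul_left_cancel₀ h
    linear_combination -u 2 * h0 - 7 * u 2 * h1 + (u 0 + 7 * u 1) * h2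

def Good (e : E) : Prop :=
  (∀ i j, i ≠ j → sp (e.1 i) (e.1 j) ≠ 0) ∧ (∀ i, sp e.2.2.2 (e.1 i) ≠ 0) ∧
  (∀ j i, cubX (cc e j) (e.1 i) ≠ 0) ∧ (∀ j, cubX (cc e j) e.2.2.2 ≠ 0) ∧
  (∀ j k, j ≠ k → cub (cc e k) (e.1 (ka j)) ≠ 0) ∧ (∀ j, cc e j 0 ≠ 0) ∧
  (∀ j, dsc (cc e j) ≠ 0) ∧ res e.2.1 e.2.2.1 ≠ 0

lemma cont_cc (j : Fin 3) (k : Fin 10) : Continuous (fun e : E => cc e j k) := by
  unfold cc cub
  fun_prop

lemma cc_e0 : ∀ j, cc e0 j = ![![6, 0, 0, -6, 0, 0, 0, -6, 6, 0],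
    ![24, 0, 0, -6, 0, 0, 0, -24, 6, 0], ![6, 0, 0, -24, 0, 0, 0, -6, 24, 0]] j := by
  intro j
  funext k
  fin_cases j <;> fin_cases k <;> simp [cc, e0, cub, a0, b0, p0, ka] <;> norm_num

lemma good_nhds : {e : E | Good e} ∈ 𝓝 e0 := by
  have hc := cont_cc
  change ∀ᶠ e in 𝓝 e0, Good e
  unfold Good
  refine Eventually.and ?_ (Eventually.and ?_ (Eventually.and ?_ (Eventually.and ?_
    (Eventually.and ?_ (Eventually.and ?_ (Eventually.and ?_ ?_))))))
  · refine eventually_all.2 fun i => eventually_all.2 fun j => ?_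
    by_cases hij : i = j
    · exact Eventually.of_forall fun e h => (h hij).elim
    have : ∀ᶠ e in 𝓝 e0, sp (e.1 i) (e.1 j) ≠ 0 := by
      refine ContinuousAt.eventually_ne (Continuous.continuousAt ?_) ?_
      · unfold sp; fun_prop
      · revert hij
        fin_cases i <;> fin_cases j <;> simp [sp, e0, p0] <;> norm_num
    exact this.mono fun e h _ => h
  · refine eventually_all.2 fun i => ?_
    refine ContinuousAt.eventually_ne (Continuous.continuousAt ?_) ?_
    · unfold sp; fun_prop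
    · fin_cases i <;> simp [sp, e0, p0, x0] <;> norm_num
  · refine eventually_all.2 fun j => eventually_all.2 fun i => ?_
    refine ContinuousAt.eventually_ne (Continuous.continuousAt ?_) ?_
    · unfold cubX; fun_prop
    · rw [cc_e0]
      fin_cases i <;> fin_cases j <;> simp [cubX, e0, p0] <;> norm_num
  · refine eventually_all.2 fun j => ?_
    refine ContinuousAt.eventually_ne (Continuous.continuousAt ?_) ?_
    · unfold cubX; fun_prop
    · rw [cc_e0]
      fin_cases j <;> simp [cubX, e0, x0]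
  · refine eventually_all.2 fun j => eventually_all.2 fun k => ?_
    by_cases hij : j = k
    · exact Eventually.of_forall fun e h => (h hij).elim
    have : ∀ᶠ e in 𝓝 e0, cub (cc e k) (e.1 (ka j)) ≠ 0 := by
      refine ContinuousAt.eventually_ne (Continuous.continuousAt ?_) ?_
      · unfold cub; fun_prop
      · rw [cc_e0]
        revert hij
        fin_cases j <;> fin_cases k <;> simp [cub, e0, p0, ka] <;> norm_num
    exact this.mono fun e h _ => h
  · refine eventually_all.2 fun j => ?_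
    refine ContinuousAt.eventually_ne (hc j 0).continuousAt ?_
    rw [cc_e0]
    fin_cases j <;> simp
  · refine eventually_all.2 fun j => ?_
    refine ContinuousAt.eventually_ne (Continuous.continuousAt ?_) ?_
    · unfold dsc; fun_prop
    · rw [cc_e0]
      fin_cases j <;> simp [dsc]
  · refine ContinuousAt.eventually_ne (Continuous.continuousAt ?_) ?_
    · unfold res br; fun_prop
    · simp [res, br, e0, a0, b0]

theorem result : ∃ (r d t : ℕ) (m : Fin r → ℕ), 1 ≤ d ∧ 1 ≤ t ∧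
    (((d + 2).choose 2 : ℕ) : ℤ) - ∑ i, (((m i + 1).choose 2 : ℕ) : ℤ)
      ≤ max ((((t + 1).choose 2 : ℕ) : ℤ) - 2) 0 ∧
    ∀ G : ℕ → MvPolynomial (Fin r × Fin 3) ℂ, (∀ k, G k ≠ 0) →
      ∃ p : Fin r → Fin 3 → ℂ,
        (∀ k, eval (fun ij : Fin r × Fin 3 => p ij.1 ij.2) (G k) ≠ 0) ∧
        (∀ i j, i ≠ j → LinearIndependent ℂ ![p i, p j]) ∧
        ∃ F : MvPolynomial (Fin 3) ℂ, F.IsHomogeneous d ∧ Squarefree F ∧
          (∀ i, mult F (p i) = (m i : ℕ∞)) ∧
          ∃ x : Fin 3 → ℂ, (∀ i, LinearIndependent ℂ ![x, p i]) ∧ mult F x = (t : ℕ∞) := by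
  refine ⟨11, 9, 3, ![3, 3, 3, 3, 3, 3, 3, 3, 1, 1, 1], by norm_num, by norm_num, ?_, ?_⟩
  · simp [Fin.sum_univ_succ, Nat.choose]
  intro G hG
  obtain ⟨p, ⟨e, ⟨g1, g2, g3, g4, g5, g6, g7, g8⟩, he⟩, hp⟩ := baire (near good_nhds) G hG
  simp only [f, Prod.mk.injEq] at he
  obtain ⟨he1, hA, hB, hAx, hBx⟩ := he
  subst he1
  refine ⟨e.1, hp, fun i j hij => li_of_sp (g1 i j hij),
    cubP (cc e 0) * cubP (cc e 1) * cubP (cc e 2), ?_, ?_, ?_, e.2.2.2,
    fun i => li_of_sp (g2 i), ?_⟩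
  · exact ((cubP_hom _).mul (cubP_hom _)).mul (cubP_hom _)
  · have hdeg : ∀ j, (rl (cubP (cc e j))).natDegree = 3 := by
      intro j
      rw [rl_cubP]
      exact Polynomial.natDegree_cubic (g6 j)
    have hne : ∀ j, rl (cubP (cc e j)) ≠ 0 := by
      intro j h
      have := hdeg j
      rw [h] at this
      simp at this
    refine sqf_of_rl (d := 9)
      (((cubP_hom _).mul (cubP_hom _)).mul (cubP_hom _)).totalDegree_le ?_ ?_
    · rw [map_mul, map_mul, Polynomial.natDegree_mul (mul_ne_zero (hne 0) (hne 1)) (hne 2),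
        Polynomial.natDegree_mul (hne 0) (hne 1), hdeg, hdeg, hdeg]
    · rw [map_mul, map_mul]
      refine Polynomial.Separable.squarefree ?_
      refine ((sep_cub (g7 0)).mul (sep_cub (g7 1)) (cop (g5 0 1 (by decide)) g8)).mul
        (sep_cub (g7 2)) ?_
      exact (cop (g5 0 2 (by decide)) g8).mul_left (cop (g5 1 2 (by decide)) g8)
  · have h1 : ∀ (j : Fin 3) (i : Fin 8), mult (cubP (cc e j)) (e.1 (io i)) = 1 := by
      intro j i
      refine mult_one ?_ ?_
      · rw [eval_cubP, cub_cc, congrFun hA i, congrFun hB i]; simp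
      · rw [eval_pderiv_cubP]; exact g3 j _
    have h2 : ∀ j : Fin 3, mult (cubP (cc e j)) (e.1 (ka j)) = 1 := by
      intro j
      refine mult_one ?_ ?_
      · rw [eval_cubP, cub_cc]; ring
      · rw [eval_pderiv_cubP]; exact g3 j _
    have h3 : ∀ j k : Fin 3, j ≠ k → mult (cubP (cc e k)) (e.1 (ka j)) = 0 := by
      intro j k hjk
      refine mult_zero ?_
      rw [eval_cubP]; exact g5 j k hjk
    have h4 : ∀ i : Fin 8, mult (cubP (cc e 0) * cubP (cc e 1) * cubP (cc e 2)) (e.1 (io i))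
        = ((3 : ℕ) : ℕ∞) := by
      intro i
      rw [mult_mul, mult_mul, h1, h1, h1]; rfl
    intro i
    fin_cases i
    · exact h4 0
    · exact h4 1
    · exact h4 2
    · exact h4 3
    · exact h4 4
    · exact h4 5
    · exact h4 6
    · exact h4 7
    · change mult _ (e.1 (ka 0)) = ((1 : ℕ) : ℕ∞)
      rw [mult_mul, mult_mul, h2 0, h3 0 1 (by decide), h3 0 2 (by decide)]; rfl
    · change mult _ (e.1 (ka 1)) = ((1 : ℕ) : ℕ∞)
      rw [mult_mul, mult_mul, h2 1, h3 1 0 (by decide), h3 1 2 (by decide)]; rfl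
    · change mult _ (e.1 (ka 2)) = ((1 : ℕ) : ℕ∞)
      rw [mult_mul, mult_mul, h2 2, h3 2 0 (by decide), h3 2 1 (by decide)]; rfl
  · have h1 : ∀ j : Fin 3, mult (cubP (cc e j)) e.2.2.2 = 1 := by
      intro j
      refine mult_one ?_ ?_
      · rw [eval_cubP, cub_cc, hAx, hBx]; simp
      · rw [eval_pderiv_cubP]; exact g4 j
    rw [mult_mul, mult_mul, h1, h1, h1]; rfl

end Pool.Agent.Results.MP_b1ca72_ag.ThreeCubics
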